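import Pool.Agent.Lib_helper19.STT.GReverse
import Pool.Agent.Lib_helper19.STT.GLip
import Pool.Agent.Lib_helper19.STT.GCode

namespace Pool.Agent.Results.MP_5667dc_lc.SpaceBySpaceTietze

open Pool.Agent.STT

/-- In every `ω`-model of `RCA₀` (every Turing ideal `M`) and for every compact metric space `X`
presented in `M`, the following are equivalent:
1. the Heine-Borel theorem for `X`, that is, the compactness of `X` in `M`;
2. the strong Tietze theorem for the closed subsets `K` of `X`;
3. the strong Tietze theorem for the closed and weakly located subsets `K` of `X`;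
4. the strong Tietze theorem for the closed and weakly located subsets `K` of `X` which have no
   accumulation points and the `1`-Lipschitz functions from `K` to `[0, 1]`;
5. the McShane-Whitney theorem for the closed subsets `K` of `X`: the `1`-Lipschitz functions from
   `K` to `[0, c]` have `1`-Lipschitz extensions from `X` to `[0, c]`. -/
theorem result (M : TuringIdeal) {X : Type} [MetricSpace X] [CompactSpace X] (α : ℕ → X)
    (hX : Presented M α) :
    List.TFAE [XHeineBorel M α, XTietze M α, XTietzeWL M α, XTietzeDiscrete M α,
      XMcShane M α] := by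
  tfae_have 1 → 2 := fun h => (xtietze_iff hX).mpr (tietze_of_hb hX h)
  tfae_have 1 → 5 := fun h => (xmcShane_iff hX).mpr (mcshane_of_hb hX h)
  tfae_have 2 → 3 := fun h K hK _ f hf => h K hK f hf
  tfae_have 3 → 4 := by
    intro h K hK hW _ f hf _ hl
    refine h K hK hW f ⟨hf, fun k => k, TuringIdeal.Has.id, ?_⟩
    intro k x hx y hy hxy
    exact (hl x hx y hy).trans hxy.le
  tfae_have 5 → 4 := by
    intro h K hK _ _ f hf hr hl
    obtain ⟨F, h1, -, h3, h4⟩ := h K hK 1 f hf (by simpa using hr) hl
    refine ⟨F, ⟨h1, fun k => k, TuringIdeal.Has.id, ?_⟩, h4⟩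
    intro k x hx y hy hxy
    exact (h3 x hx y hy).trans hxy.le
  tfae_have 4 → 1 := fun h => hb_of_discrete hX ((xtietzeDiscrete_iff hX).mp h)
  tfae_finish

end Pool.Agent.Results.MP_5667dc_lc.SpaceBySpaceTietze
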